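import Pool.Agent.Shared.Algebraicity.Germ

set_option autoImplicit false

open PowerSeries Filter Topology Metric NumberField Matrix

namespace Pool.Agent.Shared.Algebraicity

variable {K : Type*} [Field K] [NumberField K]

/-- `δ n` is a denominator of the `n`-th coefficient of `h`. -/
def Den (δ : ℕ → ℕ) (h : K⟦X⟧) : Prop := ∀ n, IsIntegral ℤ ((δ n : K) * coeff n h)

namespace Den

variable {δ : ℕ → ℕ} {f g : K⟦X⟧}

omit [NumberField K] in
lemma one : Den δ (1 : K⟦X⟧) := fun n => by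
  rw [coeff_one]
  split_ifs
  · simpa using isIntegral_algebraMap (R := ℤ) (A := K) (x := (δ n : ℤ))
  · simpa using isIntegral_zero

omit [NumberField K] in
lemma mul (hδ : ∀ a b, δ a * δ b ∣ δ (a + b)) (hf : Den δ f) (hg : Den δ g) : Den δ (f * g) :=
  fun n => by
  rw [coeff_mul, Finset.mul_sum]
  refine IsIntegral.sum _ fun x hx => ?_
  obtain ⟨e, he⟩ := hδ x.1 x.2
  rw [Finset.HasAntidiagonal.mem_antidiagonal.mp hx] at he
  have h1 : IsIntegral ℤ (e : K) := by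
    simpa using isIntegral_algebraMap (R := ℤ) (A := K) (x := (e : ℤ))
  convert h1.mul ((hf x.1).mul (hg x.2)) using 1
  rw [he]; push_cast; ring

omit [NumberField K] in
lemma pow (hδ : ∀ a b, δ a * δ b ∣ δ (a + b)) (hf : Den δ f) (k : ℕ) : Den δ (f ^ k) := by
  induction k with
  | zero => simpa using one
  | succ k ih => rw [pow_succ]; exact ih.mul hδ hf

end Den

lemma house_mul_step {f h : K⟦X⟧} {C a : ℝ} (hC : 0 < C) (ha : 0 ≤ a)
    (hf : ∀ n, house (coeff n f) ≤ C ^ (n + 1))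
    (hh : ∀ n, house (coeff n h) ≤ a * (2 * C) ^ n) (n : ℕ) :
    house (coeff n (f * h)) ≤ 2 * C * a * (2 * C) ^ n := by
  rw [coeff_mul, Finset.Nat.sum_antidiagonal_eq_sum_range_succ_mk]
  refine (house_sum_le_sum_house _ _).trans ?_
  have h1 : ∀ k ∈ Finset.range n.succ, house (coeff k f * coeff (n - k) h) ≤
      C * a * (2 * C) ^ n * (1 / 2) ^ k := fun k hk => by
    have hk' : k ≤ n := Nat.lt_succ_iff.mp (Finset.mem_range.mp hk)
    obtain ⟨m, rfl⟩ := Nat.exists_eq_add_of_le hk'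
    refine (house_mul_le _ _).trans ?_
    rw [Nat.add_sub_cancel_left]
    calc house (coeff k f) * house (coeff m h) ≤ C ^ (k + 1) * (a * (2 * C) ^ m) := by
          gcongr
          · exact house_nonneg _
          · exact hf k
          · exact hh m
      _ = C * a * (2 * C) ^ (k + m) * (1 / 2) ^ k := by
          rw [pow_add (2 * C), mul_pow 2 C k, one_div, inv_pow]
          field_simp
          ring
  refine (Finset.sum_le_sum h1).trans ?_
  rw [← Finset.mul_sum]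
  have h2 := sum_geometric_two_le n.succ
  calc C * a * (2 * C) ^ n * ∑ i ∈ Finset.range n.succ, (1 / 2 : ℝ) ^ i
      ≤ C * a * (2 * C) ^ n * 2 := by gcongr
    _ = _ := by ring

lemma house_pow_mul {f h : K⟦X⟧} {C a : ℝ} (hC : 0 < C) (ha : 0 ≤ a)
    (hf : ∀ n, house (coeff n f) ≤ C ^ (n + 1))
    (hh : ∀ n, house (coeff n h) ≤ a * (2 * C) ^ n) (i : ℕ) :
    ∀ n, house (coeff n (f ^ i * h)) ≤ (2 * C) ^ i * a * (2 * C) ^ n := by
  induction i with
  | zero => simpa using hh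
  | succ i ih =>
    intro n
    have := house_mul_step hC (by positivity) hf ih n
    rw [pow_succ' f, mul_assoc f]
    refine this.trans_eq ?_
    ring

lemma house_mono {f g : K⟦X⟧} {C : ℝ} (hC : 1 ≤ C)
    (hf : ∀ n, house (coeff n f) ≤ C ^ (n + 1)) (hg : ∀ n, house (coeff n g) ≤ C ^ (n + 1))
    (i j n : ℕ) : house (coeff n (f ^ i * g ^ j)) ≤ (2 * C) ^ (i + j + n) := by
  have h1 : ∀ n, house (coeff n (1 : K⟦X⟧)) ≤ 1 * (2 * C) ^ n := fun n => by
    rw [coeff_one]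
    split_ifs with h
    · subst h
      simpa using (house_intCast (K := K) 1).le
    · have := house_intCast (K := K) 0
      simp only [Int.cast_zero, abs_zero] at this
      rw [this]; positivity
  have h2 := house_pow_mul (by linarith) zero_le_one hg h1 j
  have h3 := house_pow_mul (by linarith) (by positivity) hf h2 i n
  rw [mul_one (g ^ j)] at h3
  refine h3.trans_eq ?_
  ring

lemma siegel (K : Type*) [Field K] [NumberField K] : ∃ c : ℝ, 0 ≤ c ∧
    ∀ (α β : Type) [Fintype α] [Fintype β] (a : Matrix α β (𝓞 K)) (A : ℝ), a ≠ 0 →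
      0 < Fintype.card α → Fintype.card β = 2 * Fintype.card α →
      (∀ k l, house (algebraMap (𝓞 K) K (a k l)) ≤ A) →
      ∃ ξ : β → 𝓞 K, ξ ≠ 0 ∧ a *ᵥ ξ = 0 ∧ ∀ l, house (ξ l : K) ≤ c * Fintype.card β * A := by
  classical
  have H : ∃ c : ℝ, ∀ (α β : Type) [Fintype α] [Fintype β] (a : Matrix α β (𝓞 K)) (A : ℝ)
      (p q : ℕ), a ≠ 0 → 0 < p → p < q → Fintype.card α = p → Fintype.card β = q →
      (∀ k l, house (algebraMap (𝓞 K) K (a k l)) ≤ A) →
      ∃ ξ : β → 𝓞 K, ξ ≠ 0 ∧ a *ᵥ ξ = 0 ∧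
        ∀ l, house (ξ l).1 ≤ c * ((c * q * A) ^ ((p : ℝ) / (q - p))) :=
    ⟨_, fun α β _ _ a A p q ha h0 hpq hα hβ habs =>
      NumberField.house.exists_ne_zero_int_vec_house_le K a ha h0 hpq hβ habs hα⟩
  obtain ⟨c, hc⟩ := H
  refine ⟨c ^ 2, by positivity, fun α β _ _ a A ha h0 h2 habs => ?_⟩
  obtain ⟨ξ, h1, h3, h4⟩ := hc α β a A _ _ ha h0 (by omega) rfl rfl habs
  refine ⟨ξ, h1, h3, fun l => (h4 l).trans_eq ?_⟩
  have : ((Fintype.card α : ℝ) / ((Fintype.card β : ℝ) - Fintype.card α)) = 1 := by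
    rw [h2]
    have : (0 : ℝ) < Fintype.card α := by exact_mod_cast h0
    push_cast
    field_simp
    ring
  rw [this, Real.rpow_one]
  ring

lemma exists_large (a b : ℝ) (ha : 0 ≤ a) (hb : 0 ≤ b) :
    ∃ E : ℕ, 0 < E ∧ a * (E : ℝ) ^ 4 * b ^ E ≤ 2 ^ (E ^ 2) := by
  obtain ⟨E, hE⟩ := exists_nat_gt (16 * (a + 1) * b)
  have h2 : ∀ n : ℕ, (n : ℝ) ≤ 2 ^ n := fun n => by exact_mod_cast Nat.lt_two_pow_self.le
  refine ⟨E + 1, Nat.succ_pos _, ?_⟩
  set n := E + 1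
  have h3 : 16 * (a + 1) * b ≤ 2 ^ n := by
    refine hE.le.trans (le_trans ?_ (h2 n))
    simp [n]
  have h4 : a ≤ (a + 1) ^ n := by
    refine le_trans (by linarith) (le_self_pow₀ (a := a + 1) (by linarith) (Nat.succ_ne_zero _))
  calc a * (n : ℝ) ^ 4 * b ^ n ≤ (a + 1) ^ n * (2 ^ n) ^ 4 * b ^ n := by
        gcongr
        exact h2 n
    _ = (16 * (a + 1) * b) ^ n := by
        rw [mul_pow, mul_pow, ← pow_mul, mul_comm n 4, pow_mul, mul_comm ((a + 1) ^ n)]; norm_num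
    _ ≤ (2 ^ n) ^ n := by gcongr
    _ = 2 ^ (n ^ 2) := by rw [← pow_mul, sq]

lemma one_le_mul_house {γ : K} (hγ : IsIntegral ℤ γ) (h0 : γ ≠ 0) (σ : K →+* ℂ) :
    1 ≤ ‖σ γ‖ * house γ ^ (Module.finrank ℚ K - 1) := by
  refine le_trans ?_ (norm_norm_le_norm_mul_house_pow γ σ)
  have h1 : IsIntegral ℤ (Algebra.norm ℚ γ) := Algebra.isIntegral_norm ℚ hγ
  obtain ⟨m, hm⟩ := IsIntegrallyClosed.isIntegral_iff.mp h1
  have h2 : Algebra.norm ℚ γ ≠ 0 := Algebra.norm_ne_zero_iff.mpr h0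
  rw [← hm] at h2 ⊢
  have h3 : m ≠ 0 := fun h => h2 (by simp [h])
  rw [← Rat.norm_cast_real]
  simp only [eq_intCast, Rat.cast_intCast, Real.norm_eq_abs]
  exact_mod_cast Int.one_le_abs h3

/-- The algebraicity criterion, local form: two power series over a number field with geometric
denominators and geometric growth which become quotients of holomorphic functions on a large disc
after an analytic change of variable at one complex place are algebraically dependent. -/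
theorem exists_relation_local (σ : K →+* ℂ) {f g : K⟦X⟧} {δ : ℕ → ℕ} {C : ℝ} (hC : 1 ≤ C)
    (hδ0 : ∀ n, δ n ≠ 0) (hδ : ∀ a b, δ a * δ b ∣ δ (a + b)) (hδC : ∀ n, (δ n : ℝ) ≤ C ^ (n + 1))
    (hf : Den δ f) (hg : Den δ g)
    (hfC : ∀ n, house (coeff n f) ≤ C ^ (n + 1)) (hgC : ∀ n, house (coeff n g) ≤ C ^ (n + 1))
    {φ : ℂ → ℂ} {ρ : ℂ} (hφ : HasStrictDerivAt φ ρ 0) (h0 : φ 0 = 0) (hρ : ρ ≠ 0)
    {u v : ℂ → ℂ} (hu : Germ (PowerSeries.map σ f) u) (hv : Germ (PowerSeries.map σ g) v)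
    {R : ℝ} (hR : (2 * (2 * C) ^ 4) ^ Module.finrank ℚ K * ‖ρ‖ < R)
    {W F G : ℂ → ℂ} (hW : DifferentiableOn ℂ W (ball 0 R)) (hF : DifferentiableOn ℂ F (ball 0 R))
    (hG : DifferentiableOn ℂ G (ball 0 R)) {T : ℝ}
    (hT : ∀ z ∈ ball (0 : ℂ) R, ‖W z‖ ≤ T ∧ ‖F z‖ ≤ T ∧ ‖G z‖ ≤ T) (hW0 : W 0 = 1)
    (hFu : ∀ᶠ q in 𝓝 (0 : ℂ), F (φ q) = W (φ q) * u q)
    (hGv : ∀ᶠ q in 𝓝 (0 : ℂ), G (φ q) = W (φ q) * v q) :
    ∃ (D : ℕ) (p : Fin D × Fin D → K), p ≠ 0 ∧
      ∑ l, PowerSeries.C (p l) * (f ^ (l.1 : ℕ) * g ^ (l.2 : ℕ)) = 0 := by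
  classical
  set B := 2 * C with hB
  have hB1 : 1 ≤ B := by linarith
  have hCB : C ≤ B := by linarith
  have hR0 : 0 < R := lt_of_le_of_lt (by positivity) hR
  have hT1 : 1 ≤ T := by simpa [hW0] using (hT 0 (mem_ball_self hR0)).1
  obtain ⟨c, hc0, hc⟩ := siegel K
  obtain ⟨E, hE0, hE⟩ := exists_large (16 * c * B) (B ^ 8 * T ^ 4) (by positivity) (by positivity)
  set D := 2 * E with hD
  set N := 2 * E ^ 2 with hN
  have hN0 : 0 < N := by positivity
  have hδB : ∀ n, (δ n : ℝ) ≤ B ^ (n + 1) := fun n => (hδC n).trans (by gcongr)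
  have hden : ∀ i j : ℕ, Den δ (f ^ i * g ^ j) := fun i j => (hf.pow hδ i).mul hδ (hg.pow hδ j)
  let a : Matrix (Fin N) (Fin D × Fin D) (𝓞 K) := fun n l =>
    ⟨(δ n : K) * coeff n (f ^ (l.1 : ℕ) * g ^ (l.2 : ℕ)), hden _ _ _⟩
  have hD0 : 0 < D := by positivity
  have ha : a ≠ 0 := fun h => by
    have := congrArg (fun x : 𝓞 K => (x : K)) (congrFun (congrFun h ⟨0, hN0⟩) (⟨0, hD0⟩, ⟨0, hD0⟩))
    simp [a, hδ0] at this
  have hcard : Fintype.card (Fin D × Fin D) = 2 * Fintype.card (Fin N) := by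
    simp only [Fintype.card_prod, Fintype.card_fin, hD, hN]; ring
  have hq : (Fintype.card (Fin D × Fin D) : ℝ) = 4 * (E : ℝ) ^ 2 := by
    simp only [Fintype.card_prod, Fintype.card_fin, hD]; push_cast; ring
  have hmono : ∀ (l : Fin D × Fin D) n,
      house (coeff n (f ^ (l.1 : ℕ) * g ^ (l.2 : ℕ))) ≤ B ^ (2 * D + n) := fun l n =>
    (house_mono hC hfC hgC _ _ _).trans (pow_le_pow_right₀ hB1 (by omega))
  obtain ⟨ξ, hξ0, hξ, hξb⟩ := hc _ _ a (B ^ (2 * N + 2 * D)) ha (by simpa using hN0) hcard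
    (fun n l => by
      change house ((δ n : K) * coeff n (f ^ (l.1 : ℕ) * g ^ (l.2 : ℕ))) ≤ _
      rw [house_nat_mul]
      calc (δ n : ℝ) * house (coeff n (f ^ (l.1 : ℕ) * g ^ (l.2 : ℕ)))
          ≤ B ^ ((n : ℕ) + 1) * B ^ (2 * D + n) := by
            gcongr
            · exact house_nonneg _
            · exact hδB n
            · exact hmono l n
        _ ≤ _ := by
            rw [← pow_add]
            exact pow_le_pow_right₀ hB1 (by omega))
  rw [hq] at hξb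
  set H := c * (4 * (E : ℝ) ^ 2) * B ^ (2 * N + 2 * D) with hH
  have hH0 : 0 ≤ H := by positivity
  refine ⟨D, fun l => (ξ l : K), fun h => hξ0 (funext fun l => ?_), ?_⟩
  · exact RingOfIntegers.ext (congrFun h l)
  by_contra hne
  set h := ∑ l : Fin D × Fin D, PowerSeries.C (ξ l : K) * (f ^ (l.1 : ℕ) * g ^ (l.2 : ℕ)) with hh
  have hco : ∀ n, coeff n h = ∑ l, (ξ l : K) * coeff n (f ^ (l.1 : ℕ) * g ^ (l.2 : ℕ)) := fun n => by
    simp [hh, coeff_C_mul]
  have hlow : ∀ n < N, coeff n h = 0 := fun n hn => by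
    have h1 := congrArg (fun x : 𝓞 K => (x : K)) (congrFun hξ ⟨n, hn⟩)
    simp only [Matrix.mulVec, dotProduct, Pi.zero_apply, map_sum, map_mul, map_zero] at h1
    have h2 : (δ n : K) * coeff n h = 0 := by
      rw [hco, Finset.mul_sum, ← h1]
      refine Finset.sum_congr rfl fun l _ => ?_
      change _ = (δ n : K) * coeff n (f ^ (l.1 : ℕ) * g ^ (l.2 : ℕ)) * (ξ l : K)
      ring
    exact (mul_eq_zero.mp h2).resolve_left (by exact_mod_cast hδ0 n)
  have hex : ∃ n, coeff n h ≠ 0 := by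
    by_contra! hcon
    exact hne (PowerSeries.ext fun n => by simp [hcon n])
  set M := Nat.find hex with hM
  have hγ0 : coeff M h ≠ 0 := Nat.find_spec hex
  have hNM : N ≤ M := by
    by_contra! hcon
    exact hγ0 (hlow M hcon)
  obtain ⟨h', hh'⟩ : X ^ M ∣ h := X_pow_dvd_iff.mpr fun m hm => by
    simpa using Nat.find_min hex hm
  have hγ : coeff M h = coeff 0 h' := by
    have := coeff_X_pow_mul h' M 0
    rw [zero_add] at this
    rw [hh', this]
  have hY : c * (4 * (E : ℝ) ^ 2) ^ 2 * B ^ (4 * D + 1) * T ^ (2 * D) ≤ 2 ^ M := by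
    calc _ = 16 * c * B * (E : ℝ) ^ 4 * (B ^ 8 * T ^ 4) ^ E := by
          rw [hD, mul_pow (B ^ 8), ← pow_mul, ← pow_mul]; ring
      _ ≤ 2 ^ (E ^ 2) := hE
      _ ≤ 2 ^ M := pow_le_pow_right₀ (by norm_num) (by omega)
  have hint : IsIntegral ℤ ((δ M : K) * coeff M h) := by
    rw [hco, Finset.mul_sum]
    refine IsIntegral.sum _ fun l _ => ?_
    convert (RingOfIntegers.isIntegral_coe (ξ l)).mul (hden l.1 l.2 M) using 1
    simp only [RingOfIntegers.coe_eq_algebraMap]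
    ring
  have hhouse : house ((δ M : K) * coeff M h) ≤ (2 * B ^ 4) ^ M := by
    rw [house_nat_mul, hco]
    have h1 : house (∑ l : Fin D × Fin D, (ξ l : K) * coeff M (f ^ (l.1 : ℕ) * g ^ (l.2 : ℕ))) ≤
        4 * (E : ℝ) ^ 2 * (H * B ^ (2 * D + M)) := by
      refine (house_sum_le_sum_house _ _).trans ?_
      rw [← hq, ← nsmul_eq_mul, ← Finset.card_univ]
      refine Finset.sum_le_card_nsmul _ _ _ fun l _ => (house_mul_le _ _).trans ?_
      gcongr
      · exact house_nonneg _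
      · exact hξb l
      · exact hmono l M
    calc _ ≤ B ^ (M + 1) * (4 * (E : ℝ) ^ 2 * (H * B ^ (2 * D + M))) := by
          gcongr
          · exact house_nonneg _
          · exact hδB M
      _ = c * (4 * (E : ℝ) ^ 2) ^ 2 * B ^ (4 * D + 1) * 1 * B ^ (2 * N + 2 * M) := by
          rw [hH]; ring
      _ ≤ c * (4 * (E : ℝ) ^ 2) ^ 2 * B ^ (4 * D + 1) * T ^ (2 * D) * B ^ (4 * M) := by
          gcongr
          · exact one_le_pow₀ hT1
          · omega
      _ ≤ 2 ^ M * B ^ (4 * M) := by gcongr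
      _ = _ := by rw [mul_pow 2 (B ^ 4), pow_mul B 4 M]
  -- the analytic estimate
  have hgerm : Germ (X ^ M * PowerSeries.map σ h')
      fun q => ∑ l : Fin D × Fin D, σ (ξ l) * (u q ^ (l.1 : ℕ) * v q ^ (l.2 : ℕ)) := by
    have h1 : X ^ M * PowerSeries.map σ h' = ∑ l : Fin D × Fin D, PowerSeries.C (σ (ξ l)) *
        (PowerSeries.map σ f ^ (l.1 : ℕ) * PowerSeries.map σ g ^ (l.2 : ℕ)) := by
      have := congrArg (PowerSeries.map σ) hh'
      rw [hh] at this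
      simpa using this.symm
    rw [h1]
    exact Germ.sum _ fun l _ => (Germ.const _).mul ((hu.pow _).mul (hv.pow _))
  obtain ⟨w, hw, hwe⟩ := hgerm.of_X_pow_mul
  obtain ⟨n, hn⟩ : ∃ n, M = n + 1 := ⟨M - 1, by omega⟩
  have hφt : Tendsto φ (𝓝 0) (𝓝 0) := by simpa [h0] using hφ.hasDerivAt.continuousAt.tendsto
  have hWt : Tendsto (fun q => W (φ q)) (𝓝 0) (𝓝 1) := by
    rw [← hW0]
    exact ((hW.differentiableAt (ball_mem_nhds _ hR0)).continuousAt.tendsto).comp hφt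
  have hsch := schwarz_lim (n := n) (S := 4 * (E : ℝ) ^ 2 * (H * T ^ (2 * D)))
    (Φ := fun z => ∑ l : Fin D × Fin D,
      σ (ξ l) * (F z ^ (l.1 : ℕ) * G z ^ (l.2 : ℕ) * W z ^ (2 * D - l.1 - l.2)))
    (v := fun q => W (φ q) ^ (2 * D) * w q) hR0 (by fun_prop) (fun z hz => by
      refine (norm_sum_le _ _).trans ?_
      rw [← hq, ← nsmul_eq_mul, ← Finset.card_univ]
      refine Finset.sum_le_card_nsmul _ _ _ fun l _ => ?_
      obtain ⟨t1, t2, t3⟩ := hT z hz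
      have e : 2 * D = l.1 + l.2 + (2 * D - l.1 - l.2) := by omega
      rw [norm_mul, norm_mul, norm_mul, norm_pow, norm_pow, norm_pow]
      conv_rhs => rw [e, pow_add, pow_add]
      gcongr
      exact (norm_embedding_le_house _ σ).trans (hξb l)) hφ h0 hρ
    ((hWt.pow _).mul hw.tendsto) (by
      filter_upwards [hwe, hFu, hGv] with q e1 e2 e3
      rw [← hn, mul_left_comm (q ^ M), ← e1, Finset.mul_sum]
      refine Finset.sum_congr rfl fun l _ => ?_
      have e : 2 * D = l.1 + l.2 + (2 * D - l.1 - l.2) := by omega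
      conv_rhs => rw [e, pow_add, pow_add]
      rw [e2, e3]
      ring)
  rw [one_pow, one_mul, coeff_map, ← hγ, ← hn] at hsch
  have hσ : ‖σ ((δ M : K) * coeff M h)‖ ≤ (2 * B ^ 4 * (‖ρ‖ / R)) ^ M := by
    rw [map_mul, norm_mul, map_natCast, Complex.norm_natCast]
    calc _ ≤ B ^ (M + 1) * (4 * (E : ℝ) ^ 2 * (H * T ^ (2 * D)) * (‖ρ‖ / R) ^ M) := by
          gcongr
          exact hδB M
      _ = c * (4 * (E : ℝ) ^ 2) ^ 2 * B ^ (2 * D + 1) * T ^ (2 * D) * B ^ (2 * N + M) *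
            (‖ρ‖ / R) ^ M := by rw [hH]; ring
      _ ≤ c * (4 * (E : ℝ) ^ 2) ^ 2 * B ^ (4 * D + 1) * T ^ (2 * D) * B ^ (4 * M) *
            (‖ρ‖ / R) ^ M := by
          gcongr
          · omega
          · omega
      _ ≤ 2 ^ M * B ^ (4 * M) * (‖ρ‖ / R) ^ M := by gcongr
      _ = _ := by rw [mul_pow (2 * B ^ 4), mul_pow 2 (B ^ 4), pow_mul B 4 M]
  have hone := one_le_mul_house hint (mul_ne_zero (by exact_mod_cast hδ0 M) hγ0) σ
  obtain ⟨k, hk⟩ : ∃ k, Module.finrank ℚ K = k + 1 :=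
    ⟨Module.finrank ℚ K - 1, by have := Module.finrank_pos (R := ℚ) (M := K); omega⟩
  rw [hk] at hR
  rw [hk, Nat.add_sub_cancel] at hone
  have hlt : (2 * B ^ 4) ^ (k + 1) * (‖ρ‖ / R) < 1 := by
    rw [← mul_div_assoc, div_lt_one hR0]; exact hR
  have : (1 : ℝ) < 1 := calc
    (1 : ℝ) ≤ _ := hone
    _ ≤ (2 * B ^ 4 * (‖ρ‖ / R)) ^ M * ((2 * B ^ 4) ^ M) ^ k := by
        have := house_nonneg ((δ M : K) * coeff M h)
        gcongr
    _ = ((2 * B ^ 4) ^ (k + 1) * (‖ρ‖ / R)) ^ M := by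
        rw [← pow_mul, mul_comm M k, pow_mul, ← mul_pow]; ring
    _ < 1 := pow_lt_one₀ (by positivity) hlt (by omega)
  exact lt_irrefl _ this

end Pool.Agent.Shared.Algebraicity
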