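import Mathlib

set_option autoImplicit false

open PowerSeries Filter Topology Metric

namespace Pool.Agent.Shared.Algebraicity

/-- Near `0`, the function `u` is the sum of the power series `A`. -/
def Germ (A : ℂ⟦X⟧) (u : ℂ → ℂ) : Prop :=
  ∀ᶠ q in 𝓝 (0 : ℂ), HasSum (fun n => coeff n A * q ^ n) (u q)

lemma summable_norm_of_hasSum {a : ℕ → ℂ} {s : ℂ} (h : HasSum a s) : Summable fun n => ‖a n‖ := by
  let : FiniteDimensional ℝ ℂ := Complex.basisOneI.finiteDimensional_of_finite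
  exact h.summable.norm

lemma hasSum_zero_pow (a : ℕ → ℂ) : HasSum (fun n => a n * (0 : ℂ) ^ n) (a 0) := by
  have := hasSum_single (f := fun n => a n * (0 : ℂ) ^ n) 0 (fun n hn => by simp [hn])
  simpa using this

namespace Germ

variable {A A' : ℂ⟦X⟧} {u u' : ℂ → ℂ}

lemma congr (h : Germ A u) (hu : u =ᶠ[𝓝 0] u') : Germ A u' := by
  filter_upwards [h, hu] with q hq hq'
  rwa [← hq']

lemma add (h : Germ A u) (h' : Germ A' u') : Germ (A + A') (fun q => u q + u' q) := by
  filter_upwards [h, h'] with q hq hq'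
  simpa [add_mul] using hq.add hq'

lemma sub (h : Germ A u) (h' : Germ A' u') : Germ (A - A') (fun q => u q - u' q) := by
  filter_upwards [h, h'] with q hq hq'
  simpa [sub_mul] using hq.sub hq'

lemma const (c : ℂ) : Germ (C c) (fun _ => c) := Eventually.of_forall fun q => by
  have := hasSum_single (f := fun n => coeff n (C c : ℂ⟦X⟧) * q ^ n) 0
    (fun n hn => by simp [coeff_C, hn])
  simpa using this

lemma one : Germ 1 (fun _ => 1) := by simpa using const 1

lemma zero : Germ 0 (fun _ => 0) := by simpa using const 0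

lemma id : Germ X (fun q => q) := Eventually.of_forall fun q => by
  have := hasSum_single (f := fun n => coeff n (X : ℂ⟦X⟧) * q ^ n) 1
    (fun n hn => by simp [coeff_X, hn])
  simpa using this

lemma mul (h : Germ A u) (h' : Germ A' u') : Germ (A * A') (fun q => u q * u' q) := by
  filter_upwards [h, h'] with q hq hq'
  have h1 := summable_norm_of_hasSum hq
  have h2 := summable_norm_of_hasSum hq'
  have h3 := (summable_norm_sum_mul_antidiagonal_of_summable_norm h1 h2).of_norm.hasSum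
  rw [← tsum_mul_tsum_eq_tsum_sum_antidiagonal_of_summable_norm h1 h2, hq.tsum_eq,
    hq'.tsum_eq] at h3
  convert! h3 using 2 with n
  rw [coeff_mul, Finset.sum_mul]
  refine Finset.sum_congr rfl fun x hx => ?_
  rw [← Finset.HasAntidiagonal.mem_antidiagonal.mp hx, pow_add]
  ring

lemma pow (h : Germ A u) (k : ℕ) : Germ (A ^ k) (fun q => u q ^ k) := by
  induction k with
  | zero => simpa using one
  | succ k ih => simpa [pow_succ] using ih.mul h

lemma sum {ι : Type*} (s : Finset ι) {B : ι → ℂ⟦X⟧} {v : ι → ℂ → ℂ}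
    (h : ∀ i ∈ s, Germ (B i) (v i)) : Germ (∑ i ∈ s, B i) (fun q => ∑ i ∈ s, v i q) := by
  classical
  induction s using Finset.induction_on with
  | empty => simpa using zero
  | insert a s ha ih =>
    simp only [Finset.sum_insert ha]
    exact (h a (by simp)).add (ih fun i hi => h i (by simp [hi]))

lemma unique (h : Germ A u) (h' : Germ A u') : u =ᶠ[𝓝 0] u' := by
  filter_upwards [h, h'] with q hq hq'
  exact hq.unique hq'

lemma apply_zero (h : Germ A u) : u 0 = coeff 0 A :=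
  h.self_of_nhds.unique (hasSum_zero_pow fun n => coeff n A)

lemma exists_radius (h : Germ A u) :
    ∃ r : ℝ, 0 < r ∧ Summable (fun n => ‖coeff n A‖ * r ^ n) := by
  obtain ⟨ε, hε, hb⟩ := Metric.eventually_nhds_iff.mp h
  refine ⟨ε / 2, by positivity, ?_⟩
  have := summable_norm_of_hasSum (hb (y := ((ε / 2 : ℝ) : ℂ)) (by
    rw [dist_zero_right, Complex.norm_real, Real.norm_eq_abs, abs_of_pos (by positivity)]
    linarith))
  refine this.congr fun n => ?_
  rw [norm_mul, norm_pow, Complex.norm_real, Real.norm_eq_abs, abs_of_pos (by positivity)]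

lemma tendsto (h : Germ A u) : Tendsto u (𝓝 0) (𝓝 (coeff 0 A)) := by
  obtain ⟨r, hr, hs⟩ := h.exists_radius
  have h1 : Tendsto (fun q : ℂ => ∑' n, coeff n A * q ^ n) (𝓝 0)
      (𝓝 (∑' n, coeff n A * (0 : ℂ) ^ n)) := by
    refine tendsto_tsum_of_dominated_convergence hs (fun n => ?_) ?_
    · exact Continuous.tendsto (by fun_prop) 0
    · filter_upwards [Metric.ball_mem_nhds (0 : ℂ) hr] with q hq n
      rw [norm_mul, norm_pow]
      have : ‖q‖ ≤ r := by simpa using (mem_ball_iff_norm.mp hq).le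
      gcongr
  rw [(hasSum_zero_pow fun n => coeff n A).tsum_eq] at h1
  refine h1.congr' ?_
  filter_upwards [h] with q hq
  exact hq.tsum_eq

lemma continuousAt (h : Germ A u) : ContinuousAt u 0 := by
  rw [ContinuousAt, h.apply_zero]; exact h.tendsto

lemma of_X_pow_mul {M : ℕ} (h : Germ (X ^ M * A) u) :
    ∃ v, Germ A v ∧ u =ᶠ[𝓝 0] fun q => q ^ M * v q := by
  have hv : Germ A fun q => ∑' n, coeff n A * q ^ n := by
    filter_upwards [h] with q hq
    rcases eq_or_ne q 0 with rfl | h0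
    · exact (hasSum_zero_pow fun n => coeff n A).summable.hasSum
    · have h1 := (summable_nat_add_iff M).mpr hq.summable
      have h2 := h1.mul_left (q ^ M)⁻¹
      refine (h2.congr fun n => ?_).hasSum
      rw [coeff_X_pow_mul, pow_add]
      field_simp
  exact ⟨_, hv, h.unique ((id.pow M).mul hv)⟩

lemma of_bound {a B : ℝ} (hB : 0 < B) (h : ∀ n, ‖coeff n A‖ ≤ a * B ^ n) :
    Germ A fun q => ∑' n, coeff n A * q ^ n := by
  filter_upwards [Metric.ball_mem_nhds (0 : ℂ) (inv_pos.mpr hB)] with q hq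
  have hq' : B * ‖q‖ < 1 := by
    have : ‖q‖ < B⁻¹ := by simpa using hq
    calc B * ‖q‖ < B * B⁻¹ := by gcongr
      _ = 1 := mul_inv_cancel₀ hB.ne'
  refine Summable.hasSum (Summable.of_norm_bounded
    ((summable_geometric_of_lt_one (by positivity) hq').mul_left a) fun n => ?_)
  rw [norm_mul, norm_pow, mul_pow, ← mul_assoc]
  gcongr
  exact h n

lemma exists_bound (h : Germ A u) : ∃ B : ℝ, 1 ≤ B ∧ ∀ n, ‖coeff n A‖ ≤ B ^ (n + 1) := by
  obtain ⟨r, hr, hs⟩ := h.exists_radius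
  set S := ∑' n, ‖coeff n A‖ * r ^ n
  refine ⟨max 1 (max S r⁻¹), le_max_left _ _, fun n => ?_⟩
  have h1 : ‖coeff n A‖ * r ^ n ≤ S := hs.le_tsum n fun m _ => by positivity
  have h2 : ‖coeff n A‖ ≤ S * r⁻¹ ^ n := by
    rw [inv_pow, ← div_eq_mul_inv, le_div_iff₀ (by positivity)]; exact h1
  have hS : 0 ≤ S := tsum_nonneg fun m => by positivity
  refine h2.trans ?_
  rw [pow_succ']
  gcongr
  · exact (le_max_left _ _).trans (le_max_right _ _)
  · exact (le_max_right _ _).trans (le_max_right _ _)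

lemma hasFPowerSeriesAt (h : Germ A u) :
    HasFPowerSeriesAt u (FormalMultilinearSeries.ofScalars ℂ fun n => coeff n A) 0 := by
  rw [hasFPowerSeriesAt_iff]
  filter_upwards [h] with q hq
  simpa [mul_comm] using hq

lemma analyticAt (h : Germ A u) : AnalyticAt ℂ u 0 := h.hasFPowerSeriesAt.analyticAt

lemma eq_zero (h : Germ A u) (hu : u =ᶠ[𝓝 0] 0) : A = 0 := by
  have h1 := (h.congr hu).hasFPowerSeriesAt.eq_zero
  ext n
  have := congrArg (fun p => FormalMultilinearSeries.coeff p n) h1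
  simp only [FormalMultilinearSeries.coeff_ofScalars] at this
  rw [this]
  rfl

end Germ

/-- Schwarz lemma in a local coordinate. -/
lemma schwarz_lim {Φ φ v : ℂ → ℂ} {R S : ℝ} {n : ℕ} {ρ L : ℂ} (hR : 0 < R)
    (hΦ : DifferentiableOn ℂ Φ (ball 0 R)) (hS : ∀ z ∈ ball (0 : ℂ) R, ‖Φ z‖ ≤ S)
    (hφ : HasStrictDerivAt φ ρ 0) (h0 : φ 0 = 0) (hρ : ρ ≠ 0) (hv : Tendsto v (𝓝 0) (𝓝 L))
    (hΦv : ∀ᶠ q in 𝓝 (0 : ℂ), Φ (φ q) = q ^ (n + 1) * v q) :
    ‖L‖ ≤ S * (‖ρ‖ / R) ^ (n + 1) := by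
  have hΦ0 : Φ 0 = 0 := by simpa [h0] using hΦv.self_of_nhds
  have hmap : map φ (𝓝 0) = 𝓝 0 := by simpa [h0] using hφ.map_nhds_eq hρ
  have hqφ : (fun q : ℂ => q) =O[𝓝 0] φ := by
    simpa [h0, Function.comp_def] using (hφ.hasDerivAt.isTheta_sub hρ).symm.isBigO
  have hO : Φ =O[𝓝 0] fun z : ℂ => z ^ (n + 1) := by
    rw [← hmap, Asymptotics.isBigO_map]
    have h1 : (fun q : ℂ => q ^ (n + 1) * v q) =O[𝓝 0] fun q => φ q ^ (n + 1) * (1 : ℂ) :=
      (hqφ.pow _).mul (hv.isBigO_one ℂ)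
    refine (h1.congr' ?_ ?_)
    · filter_upwards [hΦv] with q hq
      simp [hq]
    · filter_upwards with q
      simp
  have ho : (fun z => Φ z - Φ 0) =o[𝓝 0] fun w : ℂ => ‖w - 0‖ ^ n := by
    simp only [hΦ0, sub_zero]
    refine hO.trans_isLittleO ?_
    have := (Asymptotics.isLittleO_pow_pow (𝕜 := ℂ) (Nat.lt_succ_self n)).norm_right
    simpa using this
  have key : ∀ z ∈ ball (0 : ℂ) R, ‖Φ z‖ ≤ S * (‖z‖ / R) ^ (n + 1) := fun z hz => by
    have := Complex.dist_le_mul_div_pow_of_mapsTo_ball_of_isLittleO (R₂ := S) hΦ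
      (fun w hw => by simpa [hΦ0] using hS w hw) ho hz
    simpa [hΦ0] using this
  have hsl : Tendsto (fun q => φ q / q) (𝓝[≠] 0) (𝓝 ρ) := by
    have := hasDerivAt_iff_tendsto_slope.mp hφ.hasDerivAt
    refine this.congr fun q => ?_
    simp [slope, h0, div_eq_inv_mul]
  have hlim : Tendsto (fun q => S * (‖φ q / q‖ / R) ^ (n + 1)) (𝓝[≠] 0)
      (𝓝 (S * (‖ρ‖ / R) ^ (n + 1))) := ((hsl.norm.div_const R).pow _).const_mul S
  have hφt : Tendsto φ (𝓝 0) (𝓝 0) := hmap.le
  refine le_of_tendsto_of_tendsto (hv.norm.mono_left nhdsWithin_le_nhds) hlim ?_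
  filter_upwards [hΦv.filter_mono nhdsWithin_le_nhds, self_mem_nhdsWithin,
    (hφt.eventually (ball_mem_nhds (0 : ℂ) hR)).filter_mono nhdsWithin_le_nhds] with q hq hq0 hb
  have hq0' : 0 < ‖q‖ := norm_pos_iff.mpr hq0
  have h1 := key _ hb
  rw [hq, norm_mul, norm_pow] at h1
  rw [norm_div, div_right_comm, div_pow, ← mul_div_assoc, le_div_iff₀ (by positivity), mul_comm]
  exact h1

end Pool.Agent.Shared.Algebraicity
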