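import Pool.Agent.Shared.Algebraicity.Core

set_option autoImplicit false

open PowerSeries Filter Topology Metric NumberField

namespace Pool.Agent.Shared.Algebraicity

/-- In a punctured neighbourhood of `0`, the function `u` is the sum of the power series `A`. -/
def PGerm (A : ℂ⟦X⟧) (u : ℂ → ℂ) : Prop :=
  ∀ᶠ q in 𝓝[≠] (0 : ℂ), HasSum (fun n => coeff n A * q ^ n) (u q)

lemma Germ.pgerm {A : ℂ⟦X⟧} {u : ℂ → ℂ} (h : Germ A u) : PGerm A u :=
  h.filter_mono nhdsWithin_le_nhds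

lemma PGerm.congr {A : ℂ⟦X⟧} {u u' : ℂ → ℂ} (h : PGerm A u) (hu : u =ᶠ[𝓝[≠] 0] u') :
    PGerm A u' := by
  filter_upwards [h, hu] with q hq hq'
  rwa [← hq']

lemma PGerm.germ {A : ℂ⟦X⟧} {u : ℂ → ℂ} (h : PGerm A u) :
    Germ A (Function.update u 0 (coeff 0 A)) := by
  have := eventually_nhdsWithin_iff.mp h
  filter_upwards [this] with q hq
  rcases eq_or_ne q 0 with rfl | h0
  · simpa using hasSum_zero_pow fun n => coeff n A
  · rw [Function.update_of_ne h0]; exact hq h0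

lemma PGerm.eq_zero {A : ℂ⟦X⟧} {u : ℂ → ℂ} (h : PGerm A u) (hu : ∀ᶠ q in 𝓝[≠] 0, u q = 0) :
    A = 0 := by
  have h1 := h.germ
  have h2 : Tendsto (Function.update u 0 (coeff 0 A)) (𝓝[≠] 0) (𝓝 0) := by
    refine tendsto_const_nhds.congr' ?_
    filter_upwards [hu, self_mem_nhdsWithin] with q hq h0
    rw [Function.update_of_ne h0, hq]
  have h3 : coeff 0 A = 0 := tendsto_nhds_unique (h1.tendsto.mono_left nhdsWithin_le_nhds) h2
  refine h1.eq_zero ?_
  filter_upwards [eventually_nhdsWithin_iff.mp hu] with q hq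
  rcases eq_or_ne q 0 with rfl | h0
  · simpa using h3
  · rw [Function.update_of_ne h0]; exact hq h0

lemma PGerm.mul {A A' : ℂ⟦X⟧} {u u' : ℂ → ℂ} (h : PGerm A u) (h' : PGerm A' u') :
    PGerm (A * A') (fun q => u q * u' q) := by
  refine (h.germ.mul h'.germ).pgerm.congr ?_
  filter_upwards [self_mem_nhdsWithin] with q h0
  rw [Function.update_of_ne h0, Function.update_of_ne h0]

lemma PGerm.pow {A : ℂ⟦X⟧} {u : ℂ → ℂ} (h : PGerm A u) (k : ℕ) :
    PGerm (A ^ k) (fun q => u q ^ k) := by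
  induction k with
  | zero => simpa using Germ.one.pgerm
  | succ k ih => simpa [pow_succ] using ih.mul h

lemma PGerm.sum {ι : Type*} (s : Finset ι) {B : ι → ℂ⟦X⟧} {v : ι → ℂ → ℂ}
    (h : ∀ i ∈ s, PGerm (B i) (v i)) : PGerm (∑ i ∈ s, B i) (fun q => ∑ i ∈ s, v i q) := by
  refine (Germ.sum s fun i hi => (h i hi).germ).pgerm.congr ?_
  filter_upwards [self_mem_nhdsWithin] with q h0
  exact Finset.sum_congr rfl fun i _ => Function.update_of_ne h0 _ _

lemma PGerm.unique {A : ℂ⟦X⟧} {u u' : ℂ → ℂ} (h : PGerm A u) (h' : PGerm A u') :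
    u =ᶠ[𝓝[≠] 0] u' := by
  filter_upwards [h, h'] with q hq hq'
  exact hq.unique hq'

lemma map_nhdsNE {φ : ℂ → ℂ} {ρ : ℂ} (hφ : HasStrictDerivAt φ ρ 0) (h0 : φ 0 = 0) (hρ : ρ ≠ 0) :
    map φ (𝓝[≠] 0) = 𝓝[≠] 0 := by
  have hmap : map φ (𝓝 0) = 𝓝 0 := by simpa [h0] using hφ.map_nhds_eq hρ
  have hne : ∀ᶠ q in 𝓝[≠] (0 : ℂ), φ q ≠ 0 := hφ.hasDerivAt.eventually_ne hρ
  apply le_antisymm
  · exact tendsto_nhdsWithin_iff.mpr ⟨(show Tendsto φ (𝓝 0) (𝓝 0) from hmap.le).mono_left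
      nhdsWithin_le_nhds, hne⟩
  · intro s hs
    have h1 : ∀ᶠ q in 𝓝 (0 : ℂ), φ q ≠ 0 → φ q ∈ s := by
      filter_upwards [eventually_nhdsWithin_iff.mp hs] with q hq h2
      exact hq fun h3 => h2 (by rw [Set.mem_singleton_iff.mp h3, h0])
    have h2 : ∀ᶠ z in map φ (𝓝 (0 : ℂ)), z ≠ 0 → z ∈ s := h1
    rw [hmap] at h2
    exact eventually_nhdsWithin_iff.mpr h2

/-- Clearing the poles of a meromorphic function on a compact set. -/
lemma exists_clear {F : ℂ → ℂ} {U : Set ℂ} (hU : IsCompact U) (hF : MeromorphicOn F U)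
    (h0 : AnalyticAt ℂ F 0) : ∃ W : ℂ → ℂ, Differentiable ℂ W ∧ W 0 = 1 ∧
      AnalyticOnNhd ℂ (fun z => W z * F z) U := by
  classical
  have hfin := hU.finite_sdiff_of_mem_codiscreteWithin hF.analyticAt_mem_codiscreteWithin
  have hn : ∀ x, ∃ n : ℕ, x ∈ U → AnalyticAt ℂ (fun z => (z - x) ^ n • F z) x := fun x => by
    by_cases hx : x ∈ U
    · obtain ⟨n, hn⟩ := hF x hx
      exact ⟨n, fun _ => hn⟩
    · exact ⟨0, fun h => absurd h hx⟩
  choose n hn using hn
  set S := hfin.toFinset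
  have hS0 : ∀ x ∈ S, x ≠ 0 := fun x hx h => by
    have := hfin.mem_toFinset.mp hx
    exact this.2 (h ▸ h0)
  refine ⟨fun z => ∏ x ∈ S, ((z - x) / (-x)) ^ n x, by fun_prop, ?_, fun z hz => ?_⟩
  · refine Finset.prod_eq_one fun x hx => ?_
    rw [zero_sub, div_self (neg_ne_zero.mpr (hS0 x hx)), one_pow]
  · by_cases hzS : z ∈ S
    · have : (fun w => (∏ x ∈ S, ((w - x) / (-x)) ^ n x) * F w) = fun w =>
          ((∏ x ∈ S.erase z, ((w - x) / (-x)) ^ n x) * (-z)⁻¹ ^ n z) * ((w - z) ^ n z • F w) := by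
        funext w
        rw [← Finset.prod_erase_mul S _ hzS, div_eq_mul_inv (w - z), mul_pow, smul_eq_mul]
        ring
      rw [this]
      refine AnalyticAt.mul ?_ (hn z hz)
      refine Differentiable.analyticAt (by fun_prop) z
    · have : AnalyticAt ℂ F z := by
        by_contra hc
        exact hzS (hfin.mem_toFinset.mpr ⟨hz, hc⟩)
      exact AnalyticAt.mul (Differentiable.analyticAt (by fun_prop) z) this

lemma fix_at_zero {A : ℂ⟦X⟧} {F φ : ℂ → ℂ} {ρ : ℂ} (hφ : HasStrictDerivAt φ ρ 0) (h0 : φ 0 = 0)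
    (hρ : ρ ≠ 0) (hF : MeromorphicAt F 0) (h : PGerm A fun q => F (φ q)) :
    AnalyticAt ℂ (Function.update F 0 (coeff 0 A)) 0 ∧
      Germ A fun q => Function.update F 0 (coeff 0 A) (φ q) := by
  have h1 : Germ A fun q => Function.update F 0 (coeff 0 A) (φ q) := by
    refine h.germ.congr ?_
    have hne : ∀ᶠ q in 𝓝[≠] (0 : ℂ), φ q ≠ 0 := hφ.hasDerivAt.eventually_ne hρ
    filter_upwards [eventually_nhdsWithin_iff.mp hne] with q hq
    rcases eq_or_ne q 0 with rfl | h2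
    · simp [h0]
    · rw [Function.update_of_ne h2, Function.update_of_ne (hq h2)]
  refine ⟨(hF.update 0 _).analyticAt ?_, h1⟩
  have hmap : map φ (𝓝 0) = 𝓝 0 := by simpa [h0] using hφ.map_nhds_eq hρ
  rw [ContinuousAt, Function.update_self]
  nth_rewrite 1 [← hmap]
  exact h1.tendsto

variable {K : Type*} [Field K] [NumberField K]

/-- The algebraicity criterion for meromorphic functions on a large closed disc. -/
theorem exists_relation_ball (σ : K →+* ℂ) {f g : K⟦X⟧} {δ : ℕ → ℕ} {C : ℝ} (hC : 1 ≤ C)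
    (hδ0 : ∀ n, δ n ≠ 0) (hδ : ∀ a b, δ a * δ b ∣ δ (a + b)) (hδC : ∀ n, (δ n : ℝ) ≤ C ^ (n + 1))
    (hf : Den δ f) (hg : Den δ g)
    (hfC : ∀ n, house (coeff n f) ≤ C ^ (n + 1)) (hgC : ∀ n, house (coeff n g) ≤ C ^ (n + 1))
    {φ : ℂ → ℂ} {ρ : ℂ} (hφ : HasStrictDerivAt φ ρ 0) (h0 : φ 0 = 0) (hρ : ρ ≠ 0)
    {R : ℝ} (hR : (2 * (2 * C) ^ 4) ^ Module.finrank ℚ K * ‖ρ‖ < R)
    {F G : ℂ → ℂ} (hF : MeromorphicOn F (closedBall 0 R)) (hG : MeromorphicOn G (closedBall 0 R))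
    (hFf : PGerm (PowerSeries.map σ f) fun q => F (φ q))
    (hGg : PGerm (PowerSeries.map σ g) fun q => G (φ q)) :
    ∃ (D : ℕ) (p : Fin D × Fin D → K), p ≠ 0 ∧
      ∑ l, PowerSeries.C (p l) * (f ^ (l.1 : ℕ) * g ^ (l.2 : ℕ)) = 0 := by
  have hR0 : 0 < R := lt_of_le_of_lt (by positivity) hR
  have hm : (0 : ℂ) ∈ closedBall (0 : ℂ) R := mem_closedBall_self hR0.le
  obtain ⟨a1, g1⟩ := fix_at_zero hφ h0 hρ (hF 0 hm) hFf
  obtain ⟨a2, g2⟩ := fix_at_zero hφ h0 hρ (hG 0 hm) hGg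
  set F' := Function.update F 0 (coeff 0 (PowerSeries.map σ f))
  set G' := Function.update G 0 (coeff 0 (PowerSeries.map σ g))
  have hc := isCompact_closedBall (0 : ℂ) R
  obtain ⟨W1, d1, e1, b1⟩ := exists_clear (F := F') hc (fun x hx => (hF x hx).update 0 _) a1
  obtain ⟨W2, d2, e2, b2⟩ := exists_clear (F := G') hc (fun x hx => (hG x hx).update 0 _) a2
  have c0 : ContinuousOn (fun z => W1 z * W2 z) (closedBall 0 R) :=
    (d1.continuous.mul d2.continuous).continuousOn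
  have c1 : ContinuousOn (fun z => W2 z * (W1 z * F' z)) (closedBall 0 R) :=
    d2.continuous.continuousOn.mul b1.continuousOn
  have c2 : ContinuousOn (fun z => W1 z * (W2 z * G' z)) (closedBall 0 R) :=
    d1.continuous.continuousOn.mul b2.continuousOn
  obtain ⟨T0, t0⟩ := hc.exists_bound_of_continuousOn c0
  obtain ⟨T1, t1⟩ := hc.exists_bound_of_continuousOn c1
  obtain ⟨T2, t2⟩ := hc.exists_bound_of_continuousOn c2
  refine exists_relation_local σ hC hδ0 hδ hδC hf hg hfC hgC hφ h0 hρ g1 g2 hR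
    (W := fun z => W1 z * W2 z) (F := fun z => W2 z * (W1 z * F' z))
    (G := fun z => W1 z * (W2 z * G' z)) (by fun_prop)
    (d2.differentiableOn.mul (b1.differentiableOn.mono ball_subset_closedBall))
    (d1.differentiableOn.mul (b2.differentiableOn.mono ball_subset_closedBall))
    (T := max T0 (max T1 T2)) (fun z hz => ?_) (by simp [e1, e2])
    (Eventually.of_forall fun q => by ring) (Eventually.of_forall fun q => by ring)
  have hz' := ball_subset_closedBall hz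
  exact ⟨(t0 z hz').trans (le_max_left _ _),
    (t1 z hz').trans ((le_max_left _ _).trans (le_max_right _ _)),
    (t2 z hz').trans ((le_max_right _ _).trans (le_max_right _ _))⟩

/-- Globally bounded power series: geometric denominators, geometric growth of all conjugates. -/
def GlobBdd (f : K⟦X⟧) : Prop :=
  (∃ d : ℕ, d ≠ 0 ∧ ∀ n, IsIntegral ℤ ((d : K) ^ (n + 1) * coeff n f)) ∧
    ∃ C : ℝ, ∀ n, house (coeff n f) ≤ C ^ (n + 1)

lemma exists_house_bound {f : K⟦X⟧} (h : ∀ τ : K →+* ℂ, ∃ u, PGerm (PowerSeries.map τ f) u) :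
    ∃ C : ℝ, ∀ n, house (coeff n f) ≤ C ^ (n + 1) := by
  have h1 : ∀ τ : K →+* ℂ, ∃ B : ℝ, 1 ≤ B ∧ ∀ n, ‖τ (coeff n f)‖ ≤ B ^ (n + 1) := fun τ => by
    obtain ⟨u, hu⟩ := h τ
    simpa using hu.germ.exists_bound
  choose B hB1 hB using h1
  obtain ⟨C, hC⟩ := (Set.finite_range B).bddAbove
  refine ⟨C, fun n => ?_⟩
  rw [house_eq_sup']
  obtain ⟨τ, -, hτ⟩ := Finset.exists_mem_eq_sup' Finset.univ_nonempty
    (fun φ : K →+* ℂ => ‖φ (coeff n f)‖₊)
  rw [hτ, coe_nnnorm]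
  have := hB1 τ
  exact (hB τ n).trans (by gcongr; exact hC ⟨τ, rfl⟩)

/-- Integral coefficients and a positive radius of convergence at every complex embedding. -/
lemma GlobBdd.of_isIntegral {f : K⟦X⟧} (h1 : ∀ n, IsIntegral ℤ (coeff n f))
    (h : ∀ τ : K →+* ℂ, ∃ u, PGerm (PowerSeries.map τ f) u) : GlobBdd f :=
  ⟨⟨1, one_ne_zero, fun n => by simpa using h1 n⟩, exists_house_bound h⟩

/-- A series with integer coefficients and a positive radius of convergence. -/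
lemma GlobBdd.of_int {f : ℤ⟦X⟧} {u : ℂ → ℂ} (h : PGerm (PowerSeries.map (Int.castRingHom ℂ) f) u) :
    GlobBdd (PowerSeries.map (Int.castRingHom K) f) := by
  refine GlobBdd.of_isIntegral (fun n => ?_) fun τ => ⟨u, ?_⟩
  · rw [coeff_map]; exact isIntegral_algebraMap (R := ℤ) (A := K)
  · convert h using 1
    ext n
    simp

lemma GlobBdd.X : GlobBdd (X : K⟦X⟧) := by
  have := GlobBdd.of_int (K := K) (f := PowerSeries.X) (u := fun q => q)
    (by simpa using Germ.id.pgerm)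
  simpa using this

/-- **Algebraicity criterion** (Chudnovsky, Andre). Two globally bounded power series over a number
field which, at one complex embedding and after an analytic change of variable, extend to
meromorphic functions on the whole plane, are algebraically dependent. -/
theorem exists_relation (σ : K →+* ℂ) {f g : K⟦X⟧} (hf : GlobBdd f) (hg : GlobBdd g)
    {φ : ℂ → ℂ} {ρ : ℂ} (hφ : HasStrictDerivAt φ ρ 0) (h0 : φ 0 = 0) (hρ : ρ ≠ 0)
    {F G : ℂ → ℂ} (hF : Meromorphic F) (hG : Meromorphic G)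
    (hFf : PGerm (PowerSeries.map σ f) fun q => F (φ q))
    (hGg : PGerm (PowerSeries.map σ g) fun q => G (φ q)) :
    ∃ (D : ℕ) (p : Fin D × Fin D → K), p ≠ 0 ∧
      ∑ l, PowerSeries.C (p l) * (f ^ (l.1 : ℕ) * g ^ (l.2 : ℕ)) = 0 := by
  obtain ⟨⟨d1, hd1, i1⟩, C1, b1⟩ := hf
  obtain ⟨⟨d2, hd2, i2⟩, C2, b2⟩ := hg
  set d := d1 * d2 with hd
  have hd0 : d ≠ 0 := mul_ne_zero hd1 hd2
  have hd1' : (1 : ℝ) ≤ d := by exact_mod_cast Nat.one_le_iff_ne_zero.mpr hd0
  set C := max 1 (max |C1| |C2|) with hC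
  have hC1 : 1 ≤ C := le_max_left _ _
  have hnat : ∀ e : ℕ, IsIntegral ℤ (e : K) := fun e => by
    simpa using isIntegral_algebraMap (R := ℤ) (A := K) (x := (e : ℤ))
  have hb : ∀ {h : K⟦X⟧} {c : ℝ}, |c| ≤ C → (∀ n, house (coeff n h) ≤ c ^ (n + 1)) →
      ∀ n, house (coeff n (PowerSeries.C (d : K) * h)) ≤ (d * C) ^ (n + 1) := fun {h c} hc hh n => by
    rw [coeff_C_mul, house_nat_mul, mul_pow]
    have h1 : house (coeff n h) ≤ C ^ (n + 1) :=
      (hh n).trans ((le_abs_self _).trans (by rw [abs_pow]; gcongr))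
    have h2 := house_nonneg (coeff n h)
    gcongr
    exact le_self_pow₀ hd1' (Nat.succ_ne_zero _)
  have hPG : ∀ {h : K⟦X⟧} {u : ℂ → ℂ}, PGerm (PowerSeries.map σ h) u →
      PGerm (PowerSeries.map σ (PowerSeries.C (d : K) * h)) fun q => (d : ℂ) * u q :=
    fun {h u} hu => by simpa using (Germ.const (d : ℂ)).pgerm.mul hu
  obtain ⟨D, p, hp, hrel⟩ := exists_relation_ball σ (f := PowerSeries.C (d : K) * f)
    (g := PowerSeries.C (d : K) * g) (δ := fun n => d ^ n) (C := d * C)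
    (one_le_mul_of_one_le_of_one_le hd1' hC1) (fun n => pow_ne_zero _ hd0)
    (fun a b => by rw [pow_add])
    (fun n => by
      push_cast
      calc (d : ℝ) ^ n ≤ (d : ℝ) ^ (n + 1) * 1 := by
            rw [mul_one]; exact pow_le_pow_right₀ hd1' (Nat.le_succ n)
        _ ≤ _ := by rw [mul_pow]; gcongr; exact one_le_pow₀ hC1)
    (fun n => by
      convert! ((hnat d2).pow (n + 1)).mul (i1 n) using 1
      rw [coeff_C_mul, hd]; push_cast; ring)
    (fun n => by
      convert! ((hnat d1).pow (n + 1)).mul (i2 n) using 1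
      rw [coeff_C_mul, hd]; push_cast; ring)
    (hb ((le_max_left _ _).trans (le_max_right _ _)) b1)
    (hb ((le_max_right _ _).trans (le_max_right _ _)) b2) hφ h0 hρ (lt_add_one _)
    (F := fun z => (d : ℂ) * F z) (G := fun z => (d : ℂ) * G z)
    (fun x _ => (MeromorphicAt.const _ x).mul (hF x))
    (fun x _ => (MeromorphicAt.const _ x).mul (hG x)) (hPG hFf) (hPG hGg)
  refine ⟨D, fun l => p l * (d : K) ^ ((l.1 : ℕ) + l.2), fun h => hp (funext fun l => ?_), ?_⟩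
  · have := congrFun h l
    simpa [hd0] using this
  · rw [← hrel]
    refine Finset.sum_congr rfl fun l _ => ?_
    simp only [map_mul, map_pow]
    ring

end Pool.Agent.Shared.Algebraicity
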