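import Pool.Agent.Shared.Algebraicity.Mero
import Pool.Agent.Shared.Weier.Add

set_option autoImplicit false

open PowerSeries Filter Topology Metric NumberField Complex

namespace Pool.Agent.Shared.Algebraicity

open Weier

lemma mero_eq_zero {H : ℂ → ℂ} (hH : Meromorphic H) {x : ℂ} (h : ∀ᶠ z in 𝓝[≠] x, H z = 0)
    (y : ℂ) : ∀ᶠ z in 𝓝[≠] y, H z = 0 := by
  rw [← meromorphicOrderAt_eq_top_iff] at h ⊢
  by_contra hy
  exact (hH.meromorphicOn (s := Set.univ)).meromorphicOrderAt_ne_top_of_isPreconnected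
    isPreconnected_univ (Set.mem_univ y) (Set.mem_univ x) hy h

/-- A two variable relation as a polynomial in the second variable. -/
noncomputable def relPoly {A : Type*} [CommRing A] {k : Type*} [Field k] [Algebra k A] {D : ℕ}
    (p : Fin D × Fin D → k) (f : A) : Polynomial A :=
  ∑ l : Fin D × Fin D, Polynomial.monomial l.2 (algebraMap k A (p l) * f ^ (l.1 : ℕ))

lemma eval_relPoly {A : Type*} [CommRing A] {k : Type*} [Field k] [Algebra k A] {D : ℕ}
    (p : Fin D × Fin D → k) (f y : A) :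
    (relPoly p f).eval y = ∑ l, algebraMap k A (p l) * (f ^ (l.1 : ℕ) * y ^ (l.2 : ℕ)) := by
  simp [relPoly, Polynomial.eval_finsetSum, mul_assoc]

lemma relPoly_ne_zero {A : Type*} [CommRing A] {k : Type*} [Field k] [Algebra k A] {D : ℕ}
    {p : Fin D × Fin D → k} (hp : p ≠ 0) {f : A} (hf : Transcendental k f) : relPoly p f ≠ 0 := by
  intro h
  apply hp
  funext ⟨i, j⟩
  have h1 := congrArg (fun Q => Polynomial.coeff Q j) h
  simp only [relPoly, Polynomial.finsetSum_coeff, Polynomial.coeff_monomial, Fintype.sum_prod_type,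
    Polynomial.coeff_zero, Fin.val_inj, Finset.sum_ite_eq', Finset.mem_univ, if_true] at h1
  have h2 : (∑ a : Fin D, Polynomial.monomial (a : ℕ) (p (a, j))) = 0 := by
    refine (transcendental_iff.mp hf) _ ?_
    simpa [Polynomial.aeval_monomial] using h1
  have h3 := congrArg (fun Q => Polynomial.coeff Q i) h2
  simpa [Polynomial.finsetSum_coeff, Polynomial.coeff_monomial, Fin.val_inj] using h3

lemma transcendental_of_coeff {A : ℂ⟦X⟧} {n : ℕ} (hn : n ≠ 0) (h : coeff n A ≠ 0) :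
    Transcendental ℂ A := fun ha => by
  have hi := ha.isIntegral
  obtain ⟨c, hc⟩ := minpoly.mem_range_of_degree_eq_one ℂ A
    (IsAlgClosed.degree_eq_one_of_irreducible ℂ (minpoly.irreducible hi))
  apply h
  rw [← hc]
  simp [coeff_C, hn]

variable {K : Type*} [Field K] [NumberField K]

/-- The criterion in the form: algebraically dependent. -/
theorem not_algebraicIndependent (σ : K →+* ℂ) {f g : K⟦X⟧} (hf : GlobBdd f) (hg : GlobBdd g)
    {φ : ℂ → ℂ} {ρ : ℂ} (hφ : HasStrictDerivAt φ ρ 0) (h0 : φ 0 = 0) (hρ : ρ ≠ 0)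
    {F G : ℂ → ℂ} (hF : Meromorphic F) (hG : Meromorphic G)
    (hFf : PGerm (PowerSeries.map σ f) fun q => F (φ q))
    (hGg : PGerm (PowerSeries.map σ g) fun q => G (φ q)) :
    ¬ AlgebraicIndependent K ![f, g] := by
  obtain ⟨D, p, hp, hrel⟩ := exists_relation σ hf hg hφ h0 hρ hF hG hFf hGg
  intro h
  have h1 := algebraicIndependent_iff.mp h
    (∑ l : Fin D × Fin D, MvPolynomial.C (p l) *
      (MvPolynomial.X 0 ^ (l.1 : ℕ) * MvPolynomial.X 1 ^ (l.2 : ℕ))) (by
      simpa [PowerSeries.algebraMap_apply] using hrel)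
  have h2 := congrArg (MvPolynomial.aeval (R := K)
    ![(Polynomial.C Polynomial.X : Polynomial (Polynomial K)), Polynomial.X]) h1
  refine relPoly_ne_zero hp (Polynomial.transcendental_X K) ?_
  rw [map_zero] at h2
  rw [← h2, relPoly, map_sum]
  refine Finset.sum_congr rfl fun l _ => ?_
  simp [← Polynomial.C_mul_X_pow_eq_monomial, mul_assoc]

/-- The criterion for one series: `y` is algebraic over the polynomial ring. -/
theorem isAlgebraic_of_uniformization (σ : K →+* ℂ) {y : K⟦X⟧} (hy : GlobBdd y)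
    {φ : ℂ → ℂ} {ρ : ℂ} (hφ : HasStrictDerivAt φ ρ 0) (h0 : φ 0 = 0) (hρ : ρ ≠ 0)
    {T Y : ℂ → ℂ} (hT : Meromorphic T) (hY : Meromorphic Y)
    (hTφ : ∀ᶠ q in 𝓝[≠] (0 : ℂ), T (φ q) = q)
    (hYy : PGerm (PowerSeries.map σ y) fun q => Y (φ q)) :
    IsAlgebraic (Polynomial K) y := by
  obtain ⟨D, p, hp, hrel⟩ := exists_relation σ GlobBdd.X hy hφ h0 hρ hT hY
    (by simpa using Germ.id.pgerm.congr (EventuallyEq.symm hTφ)) hYy
  refine ⟨relPoly p Polynomial.X, relPoly_ne_zero hp (Polynomial.transcendental_X K), ?_⟩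
  rw [← hrel, relPoly, map_sum]
  refine Finset.sum_congr rfl fun l _ => ?_
  have : ∀ r : Polynomial K, algebraMap (Polynomial K) K⟦X⟧ r = (r : K⟦X⟧) := fun r => by
    change Polynomial.coeToPowerSeries.algHom K r = _
    simp [Polynomial.coeToPowerSeries.algHom_apply]
  simp [Polynomial.aeval_monomial, this, mul_assoc]

/-- If the first function has the period `l` and the second one is multiplied by `c` under
translation by `l`, then `c` is a root of unity. -/
theorem root_of_unity (σ : K →+* ℂ) {f g : K⟦X⟧} (hf : GlobBdd f) (hg : GlobBdd g)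
    {φ : ℂ → ℂ} {ρ : ℂ} (hφ : HasStrictDerivAt φ ρ 0) (h0 : φ 0 = 0) (hρ : ρ ≠ 0)
    {F G : ℂ → ℂ} (hF : Meromorphic F) (hG : Meromorphic G)
    (hFf : PGerm (PowerSeries.map σ f) fun q => F (φ q))
    (hGg : PGerm (PowerSeries.map σ g) fun q => G (φ q))
    {n : ℕ} (hn : n ≠ 0) (hfn : coeff n f ≠ 0) (hg0 : g ≠ 0) {l c : ℂ} (hc : c ≠ 0)
    (hFl : ∀ᶠ z in 𝓝[≠] (0 : ℂ), F (z + l) = F z)
    (hGl : ∀ᶠ z in 𝓝[≠] (0 : ℂ), G (z + l) = c * G z) : ∃ m : ℕ, 0 < m ∧ c ^ m = 1 := by
  obtain ⟨D, p, hp, hrel⟩ := exists_relation σ hf hg hφ h0 hρ hF hG hFf hGg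
  have hmap := map_nhdsNE hφ h0 hρ
  have hFs : Meromorphic fun z => F (z + l) := Meromorphic.meromorphic_fun_comp_add_const_iff_meromorphic.mpr hF
  have hGs : Meromorphic fun z => G (z + l) := Meromorphic.meromorphic_fun_comp_add_const_iff_meromorphic.mpr hG
  have hF1 := mero_eq_zero (H := fun z => F (z + l) - F z) (hFs.sub hF)
    (hFl.mono fun z hz => sub_eq_zero.mpr hz)
  have hG1 := mero_eq_zero (H := fun z => G (z + l) - c * G z)
    (hGs.sub ((Meromorphic.const c).mul hG)) (hGl.mono fun z hz => sub_eq_zero.mpr hz)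
  have hPG : ∀ a : ℂ, PGerm (∑ i : Fin D × Fin D, PowerSeries.C (σ (p i)) *
      (PowerSeries.map σ f ^ (i.1 : ℕ) * (PowerSeries.C a * PowerSeries.map σ g) ^ (i.2 : ℕ)))
      fun q => ∑ i : Fin D × Fin D, σ (p i) * (F (φ q) ^ (i.1 : ℕ) * (a * G (φ q)) ^ (i.2 : ℕ)) :=
    fun a => PGerm.sum _ fun i _ => (Germ.const _).pgerm.mul
      ((hFf.pow _).mul (((Germ.const a).pgerm.mul hGg).pow _))
  have hmer : ∀ a : ℂ, Meromorphic fun z =>
      ∑ i : Fin D × Fin D, σ (p i) * (F z ^ (i.1 : ℕ) * (a * G z) ^ (i.2 : ℕ)) := fun a x => by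
    have h1 := hF x
    have h2 := hG x
    fun_prop
  have key : ∀ k : ℕ, ∀ᶠ z in 𝓝[≠] (0 : ℂ),
      ∑ i : Fin D × Fin D, σ (p i) * (F z ^ (i.1 : ℕ) * (c ^ k * G z) ^ (i.2 : ℕ)) = 0 := by
    intro k
    induction k with
    | zero =>
      have h1 := hPG 1
      have h2 := congrArg (PowerSeries.map σ) hrel
      simp only [map_sum, map_mul, map_pow, map_C, map_zero] at h2
      simp only [map_one, one_mul, h2] at h1
      have h3 := h1.unique Germ.zero.pgerm
      rw [← hmap, eventually_map]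
      filter_upwards [h3] with q hq
      simpa using hq
    | succ k ih =>
      have h1 := (tendsto_add_nhdsNE 0 l).eventually (mero_eq_zero (hmer _) ih (0 + l))
      filter_upwards [h1, hFl, hGl] with z e1 e2 e3
      rw [e2, e3, ← mul_assoc, ← pow_succ] at e1
      exact e1
  have hroot : ∀ k : ℕ, (relPoly (fun i => σ (p i)) (PowerSeries.map σ f)).IsRoot
      (PowerSeries.C (c ^ k) * PowerSeries.map σ g) := fun k => by
    rw [Polynomial.IsRoot, eval_relPoly]
    refine (hPG (c ^ k)).eq_zero ?_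
    have := key k
    rwa [← hmap, eventually_map] at this
  have hne := relPoly_ne_zero (p := fun i => σ (p i)) (f := PowerSeries.map σ f)
    (fun h => hp (funext fun i => by simpa using congrFun h i))
    (transcendental_of_coeff hn (by simpa using hfn))
  have hninj : ¬ Function.Injective fun k : ℕ => PowerSeries.C (c ^ k) * PowerSeries.map σ g :=
    fun hinj => hne (Polynomial.eq_zero_of_infinite_isRoot _
      (Set.infinite_of_injective_forall_mem hinj hroot))
  have hg1 : PowerSeries.map σ g ≠ 0 := fun h =>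
    hg0 (PowerSeries.map_injective σ σ.injective (by simpa using h))
  have : ¬ Function.Injective fun k : ℕ => c ^ k := fun hinj => hninj fun a b e =>
    hinj (PowerSeries.C_injective (mul_right_cancel₀ hg1 e))
  have hfin : IsOfFinOrder (Units.mk0 c hc) := by
    by_contra hcon
    exact this fun a b e => injective_pow_iff_not_isOfFinOrder.mpr hcon (Units.ext (by simpa using e))
  obtain ⟨m, hm, e⟩ := isOfFinOrder_iff_pow_eq_one.mp hfin
  exact ⟨m, hm, by simpa using congrArg Units.val e⟩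

/-- The multiplicative function with divisor `∑ n i [z i]` and logarithmic derivative
`c + ∑ n i ζ(z - z i)`. -/
noncomputable def theta (L : PeriodPair) {ι : Type*} (s : Finset ι) (z : ι → ℂ) (n : ι → ℤ) (c : ℂ)
    (w : ℂ) : ℂ := cexp (c * w) * ∏ i ∈ s, sig L (w - z i) ^ n i

section theta

variable {L : PeriodPair} {ι : Type*} {s : Finset ι} {z : ι → ℂ} {n : ι → ℤ} {c : ℂ}

lemma meromorphic_theta : Meromorphic (theta L s z n c) := fun x => by
  have h1 : ∀ i, MeromorphicAt (fun w => sig L (w - z i)) x := fun i =>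
    ((analyticAt_sig _).comp (f := fun w => w - z i) (by fun_prop)).meromorphicAt
  have h2 : MeromorphicAt (fun w => cexp (c * w)) x :=
    (Differentiable.analyticAt (by fun_prop) x).meromorphicAt
  exact h2.mul (MeromorphicAt.fun_prod fun i _ => (h1 i).zpow (n i))

lemma theta_ne {w : ℂ} (hw : ∀ i ∈ s, w - z i ∉ L.lattice) : theta L s z n c w ≠ 0 :=
  mul_ne_zero (exp_ne_zero _) (Finset.prod_ne_zero_iff.mpr fun i hi =>
    zpow_ne_zero _ (sig_ne (hw i hi)))

lemma hasDerivAt_theta {w : ℂ} (hw : ∀ i ∈ s, w - z i ∉ L.lattice) :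
    HasDerivAt (theta L s z n c)
      ((c + ∑ i ∈ s, n i * zet L (w - z i)) * theta L s z n c w) w := by
  classical
  have h1 : HasDerivAt (fun w => ∏ i ∈ s, sig L (w - z i) ^ n i)
      ((∑ i ∈ s, n i * zet L (w - z i)) * ∏ i ∈ s, sig L (w - z i) ^ n i) w := by
    induction s using Finset.induction_on with
    | empty => simpa using hasDerivAt_const w (1 : ℂ)
    | insert a s ha ih =>
      simp only [Finset.prod_insert ha, Finset.sum_insert ha]
      have h2 := hw a (by simp)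
      have h3 := (hasDerivAt_zpow (n a) (sig L (w - z a)) (Or.inl (sig_ne h2))).comp w
        ((hasDerivAt_sig h2).comp_sub_const w (z a))
      refine (h3.mul (ih fun i hi => hw i (by simp [hi]))).congr_deriv ?_
      rw [zpow_sub_one₀ (sig_ne h2)]
      have := sig_ne h2
      simp only [Function.comp]
      field_simp
  refine ((((hasDerivAt_id w).const_mul c).cexp).mul h1).congr_deriv ?_
  simp only [theta, id]
  ring

lemma theta_add (hn : ∑ i ∈ s, n i = 0) {l : ℂ} (hl : l ∈ L.lattice) (w : ℂ) :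
    theta L s z n c (w + l) =
      cexp (c * l - eta L l * ∑ i ∈ s, n i * z i) * theta L s z n c w := by
  obtain ⟨e, he, -, h⟩ := sig_add hl
  have he0 : e ≠ 0 := by rcases he with rfl | rfl <;> norm_num
  have h1 : ∀ i ∈ s, sig L (w + l - z i) ^ n i =
      (e ^ n i * cexp (n i * (eta L l * (w - z i + l / 2)))) * sig L (w - z i) ^ n i := fun i _ => by
    rw [add_sub_right_comm, h, mul_zpow, mul_zpow, exp_int_mul]
  have h2 : ∏ i ∈ s, e ^ n i = 1 := by
    rw [← zpow_zero e, ← hn]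
    exact (map_prod (zpowersHom ℂˣ (Units.mk0 e he0)) (fun i => Multiplicative.ofAdd (n i)) s).symm
      |> congrArg Units.val |> fun h => by simpa [← ofAdd_sum] using h
  have hn' : ∑ i ∈ s, (n i : ℂ) = 0 := by exact_mod_cast hn
  have h3 : ∑ i ∈ s, (n i : ℂ) * (eta L l * (w - z i + l / 2)) =
      -(eta L l * ∑ i ∈ s, n i * z i) := by
    have : ∀ i ∈ s, (n i : ℂ) * (eta L l * (w - z i + l / 2)) =
        eta L l * (w + l / 2) * n i - eta L l * (n i * z i) := fun i _ => by ring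
    rw [Finset.sum_congr rfl this, Finset.sum_sub_distrib, ← Finset.mul_sum, ← Finset.mul_sum, hn']
    ring
  rw [theta, theta, Finset.prod_congr rfl h1, Finset.prod_mul_distrib, Finset.prod_mul_distrib, h2,
    ← exp_sum, h3, mul_add, exp_add, sub_eq_add_neg (c * l), exp_add]
  ring

end theta

/-- Solutions of the logarithmic differential equation are multiples of `theta`. -/
lemma eq_theta_of_ode {L : PeriodPair} {ι : Type*} {s : Finset ι} {z : ι → ℂ} {n : ι → ℤ} {c : ℂ}
    (hz : ∀ i ∈ s, z i ∉ L.lattice) {φ φ' v : ℂ → ℂ} (h0 : φ 0 = 0)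
    (hφ : ∀ᶠ q in 𝓝 (0 : ℂ), HasDerivAt φ (φ' q) q)
    (hv : ∀ᶠ q in 𝓝 (0 : ℂ),
      HasDerivAt v ((c + ∑ i ∈ s, n i * zet L (φ q - z i)) * φ' q * v q) q) :
    ∃ a, ∀ᶠ q in 𝓝 (0 : ℂ), v q = a * theta L s z n c (φ q) := by
  have ht : Tendsto φ (𝓝 0) (𝓝 0) := by simpa [h0] using hφ.self_of_nhds.continuousAt.tendsto
  have h1 : ∀ᶠ q in 𝓝 (0 : ℂ), ∀ i ∈ s, φ q - z i ∉ L.lattice :=
    (eventually_all_finset s).mpr fun i hi => ht.eventually
      (ev_sub_notMem (fun h => hz i hi (by simpa using neg_mem h)))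
  obtain ⟨r, hr, hb⟩ := Metric.eventually_nhds_iff_ball.mp (hφ.and (hv.and h1))
  have hd : ∀ q ∈ ball (0 : ℂ) r, HasDerivAt (fun q => v q / theta L s z n c (φ q)) 0 q := by
    intro q hq
    obtain ⟨e1, e2, e3⟩ := hb q hq
    refine (e2.div ((hasDerivAt_theta e3).comp q e1) (theta_ne e3)).congr_deriv ?_
    simp only [Function.comp]
    ring
  refine ⟨v 0 / theta L s z n c (φ 0), ?_⟩
  filter_upwards [ball_mem_nhds (0 : ℂ) hr] with q hq
  rw [← isOpen_ball.is_const_of_deriv_eq_zero (convex_ball (0 : ℂ) r).isPreconnected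
    (fun x hx => (hd x hx).differentiableAt.differentiableWithinAt) (fun x hx => (hd x hx).deriv)
    hq (mem_ball_self hr), div_mul_cancel₀ _ (theta_ne (hb q hq).2.2)]

/-- **Torsion criterion.** If the exponential of the integral of a differential of the third kind
on `ℂ / L` has a globally bounded expansion, its residue divisor is torsion. -/
theorem torsion_of_globBdd (σ : K →+* ℂ) {f g : K⟦X⟧} (hf : GlobBdd f) (hg : GlobBdd g)
    {φ : ℂ → ℂ} {ρ : ℂ} (hφ : HasStrictDerivAt φ ρ 0) (h0 : φ 0 = 0) (hρ : ρ ≠ 0)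
    (L : PeriodPair) {F : ℂ → ℂ} (hF : Meromorphic F)
    (hFf : PGerm (PowerSeries.map σ f) fun q => F (φ q)) {k : ℕ} (hk : k ≠ 0)
    (hfk : coeff k f ≠ 0) (hFl : ∀ l ∈ L.lattice, ∀ᶠ w in 𝓝[≠] (0 : ℂ), F (w + l) = F w)
    {ι : Type*} {s : Finset ι} {z : ι → ℂ} {n : ι → ℤ} {c a : ℂ} (hn : ∑ i ∈ s, n i = 0)
    (hg0 : g ≠ 0) (hGg : PGerm (PowerSeries.map σ g) fun q => a * theta L s z n c (φ q)) :
    ∃ m : ℕ, 0 < m ∧ m * ∑ i ∈ s, n i * z i ∈ L.lattice := by
  have key : ∀ l ∈ L.lattice, ∃ m : ℕ, 0 < m ∧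
      cexp (c * l - eta L l * ∑ i ∈ s, n i * z i) ^ m = 1 := fun l hl =>
    root_of_unity σ hf hg hφ h0 hρ hF (G := fun w => a * theta L s z n c w)
      ((Meromorphic.const a).mul meromorphic_theta) hFf hGg hk hfk hg0 (exp_ne_zero _) (hFl l hl)
      (Eventually.of_forall fun w => by rw [theta_add hn hl]; ring)
  obtain ⟨m1, p1, e1⟩ := key _ L.ω₁_mem_lattice
  obtain ⟨m2, p2, e2⟩ := key _ L.ω₂_mem_lattice
  refine ⟨m1 * m2, Nat.mul_pos p1 p2, mem_lattice_of_exp (c := (m1 * m2 : ℕ) * c) ?_ ?_⟩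
  · rw [← one_pow m2, ← e1, ← pow_mul, ← exp_nat_mul]; congr 1; ring
  · rw [← one_pow m1, ← e2, ← pow_mul, ← exp_nat_mul]; congr 1; push_cast; ring

end Pool.Agent.Shared.Algebraicity
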